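import Mathlib
import Pool.Agent.U610.PC.Stm

/-! # Project PC (helper610), package PERT, by helper200: perturbation -/

set_option autoImplicit false

namespace Pool.Agent.U200.PC

open Polynomial Pool.Agent.TH766.HP Pool.Agent.U610.PC

theorem cast_aeval (K : Type) [Field K] [CharZero K] (b : ℚ) (P : ℤ[X]) :
    ((aeval b P : ℚ) : K) = aeval (b : K) P := by
  have h := Polynomial.hom_eval₂ P (algebraMap ℤ ℚ) (Rat.castHom K) b
  rw [aeval_def, aeval_def]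
  change (Rat.castHom K) _ = _
  rw [h]
  have h2 : (Rat.castHom K).comp (algebraMap ℤ ℚ) = algebraMap ℤ K := RingHom.ext_int _ _
  rw [h2]
  rfl

theorem sq_one_add (p : ℕ) [Fact p.Prime] (hp : p ≠ 2) (u : ℚ_[p]) (hu : ‖u‖ < 1) :
    IsSquare (1 + u) := by
  have hp2 : ‖((2 : ℕ) : ℚ_[p])‖ = 1 := by
    rw [Padic.norm_natCast_eq_one_iff]
    exact (Nat.coprime_primes (Fact.out : p.Prime) Nat.prime_two).2 hp
  let u' : ℤ_[p] := ⟨u, hu.le⟩
  let G : ℤ_[p][X] := X ^ 2 - C (1 + u')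
  have h1 : G.aeval (1 : ℤ_[p]) = -u' := by
    simp [G]
  have h2 : G.derivative.aeval (1 : ℤ_[p]) = 2 := by
    simp [G]
    exact one_add_one_eq_two
  have h3 : ‖(2 : ℤ_[p])‖ = 1 := by
    rw [← hp2]
    rfl
  obtain ⟨z, hz, -⟩ := hensels_lemma (F := G) (a := (1 : ℤ_[p])) (by
    rw [h1, h2, h3, norm_neg]
    show ‖u‖ < 1 ^ 2
    rw [one_pow]
    exact hu)
  have h4 : z ^ 2 = 1 + u' := by
    have h5 : G.aeval z = z ^ 2 - (1 + u') := by
      simp [G]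
    rw [h5] at hz
    exact sub_eq_zero.1 hz
  refine ⟨(z : ℚ_[p]), ?_⟩
  have h5 := congrArg (fun t : ℤ_[p] => (t : ℚ_[p])) h4
  simp only [PadicInt.coe_pow, PadicInt.coe_add, PadicInt.coe_one] at h5
  rw [← sq, h5]

theorem norm_ne (l p : ℕ) [Fact l.Prime] [Fact p.Prime] (h : l ≠ p) : ‖(p : ℚ_[l])‖ = 1 := by
  rw [Padic.norm_natCast_eq_one_iff]
  exact (Nat.coprime_primes Fact.out Fact.out).2 h

theorem norm_nd (l M : ℕ) [hl : Fact l.Prime] (h : ¬ l ∣ M) : ‖(M : ℚ_[l])‖ = 1 := by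
  rw [Padic.norm_natCast_eq_one_iff]
  exact (Nat.Prime.coprime_iff_not_dvd hl.out).2 h

theorem norm_dv (l M : ℕ) [hl : Fact l.Prime] (h : l ∣ M) : ‖(M : ℚ_[l])‖ ≤ (l : ℝ)⁻¹ := by
  obtain ⟨c, rfl⟩ := h
  rw [Nat.cast_mul, norm_mul, Padic.norm_p]
  have h1 : ‖((c : ℕ) : ℚ_[l])‖ ≤ 1 := by
    have := Padic.norm_int_le_one (p := l) (c : ℤ)
    simpa using this
  have h2 : (0 : ℝ) ≤ (l : ℝ)⁻¹ := by positivity
  nlinarith

theorem rich_p (Q : Set ℕ) (hQ : Rich Q) {n : ℕ} (D : Fin n → ℤ[X]) (N : ℕ) :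
    ∃ (p : ℕ) (_ : Fact p.Prime), p ∈ Q ∧ N < p ∧ IsSquare (-1 : ℚ_[p]) ∧
      ∀ i, IsSquare (((D i).leadingCoeff : ℤ) : ℚ_[p]) := by
  classical
  obtain ⟨p, hp, h1, h2, h3⟩ := hQ (insert (X ^ 2 - C (-1 : ℤ))
    (Finset.univ.image fun i => X ^ 2 - C (D i).leadingCoeff)) N (by
      intro f hf
      rw [Finset.mem_insert, Finset.mem_image] at hf
      rcases hf with rfl | ⟨i, -, rfl⟩
      · rw [natDegree_X_pow_sub_C]
        norm_num
      · rw [natDegree_X_pow_sub_C]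
        norm_num)
  have h4 : ∀ c : ℤ, (∃ t : ℚ_[p], aeval t (X ^ 2 - C c : ℤ[X]) = 0) → IsSquare ((c : ℤ) : ℚ_[p]) := by
    rintro c ⟨t, ht⟩
    refine ⟨t, ?_⟩
    rw [map_sub, map_pow, aeval_X, aeval_C, sub_eq_zero] at ht
    rw [← sq, ht]
    simp
  refine ⟨p, hp, h1, h2, ?_, fun i => ?_⟩
  · have := h4 (-1) (h3 _ (Finset.mem_insert_self _ _))
    simpa using this
  · exact h4 _ (h3 _ (Finset.mem_insert_of_mem (Finset.mem_image_of_mem _ (Finset.mem_univ i))))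

theorem t_PERT (hH : S_HMN) (hC : S_CLO) (hI : S_INF) : S_PERT := by
  classical
  intro n hn D hG Q hQ a ha hIso E hE
  obtain ⟨N₀, hN₀⟩ := hG
  have hD : ∀ i, D i ≠ 0 := by
    intro i h
    apply ha i
    rw [h, map_zero]
  obtain ⟨N₁, hN₁⟩ := hI n (by omega) D hD
  obtain ⟨⟨δ, hδ, hreal⟩, hpad⟩ := hC n D a ha hIso
  -- the modulus
  obtain ⟨M, hM0, hMa, hMs⟩ : ∃ M : ℕ, 0 < M ∧ a.den ∣ M ∧
      ∀ l : ℕ, l.Prime → ¬ l ∣ M → N₀ < l ∧ l ≠ 2 := by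
    refine ⟨a.den * (max N₀ 2).factorial, Nat.mul_pos a.den_pos (Nat.factorial_pos _),
      Dvd.intro _ rfl, ?_⟩
    intro l hl h
    have h1 : ¬ l ≤ max N₀ 2 := fun h2 =>
      h (Dvd.dvd.mul_left ((Nat.Prime.dvd_factorial hl).2 h2) _)
    constructor
    · omega
    · omega
  have haint : ∀ (l : ℕ) [Fact l.Prime], ¬ l ∣ M → ‖(a : ℚ_[l])‖ ≤ 1 := by
    intro l _ h
    exact Padic.norm_rat_le_one fun h1 => h (h1.trans hMa)
  -- the exponent
  have hκ : ∀ l : ℕ, ∃ κ : ℕ, ∀ [Fact l.Prime], ∀ m : ℕ, κ ≤ m → ∀ b : ℚ,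
      ‖((b - a : ℚ) : ℚ_[l])‖ ≤ ((l : ℝ)⁻¹) ^ m → Iso fun i => ((aeval b (D i) : ℚ) : ℚ_[l]) := by
    intro l
    by_cases hl : l.Prime
    · have : Fact l.Prime := ⟨hl⟩
      obtain ⟨δ', hδ', h⟩ := hpad l
      have hl1 : (l : ℝ)⁻¹ < 1 := inv_lt_one_of_one_lt₀ (by exact_mod_cast hl.one_lt)
      have hl0 : (0 : ℝ) ≤ (l : ℝ)⁻¹ := by positivity
      obtain ⟨κ, hκ⟩ := exists_pow_lt_of_lt_one hδ' hl1
      refine ⟨κ, fun m hm b hb => h b ?_⟩
      exact (hb.trans (pow_le_pow_of_le_one hl0 hl1.le hm)).trans_lt hκ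
    · exact ⟨0, fun {hf} => absurd hf.out hl⟩
  choose κ hκ using hκ
  set k : ℕ := 2 * ∑ l ∈ M.primeFactors, κ l with hk
  have hkl : ∀ l : ℕ, l.Prime → l ∣ M → κ l ≤ k := by
    intro l hl hlM
    have h1 : κ l ≤ ∑ l ∈ M.primeFactors, κ l :=
      Finset.single_le_sum (f := κ) (fun _ _ => Nat.zero_le _)
        (Nat.mem_primeFactors.2 ⟨hl, hlM, hM0.ne'⟩)
    omega
  -- the prime
  obtain ⟨p, hp, hpQ, hpN, hp1, hplc⟩ := rich_p Q hQ D (max N₁ M)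
  have hpM : ¬ p ∣ M := fun h => by
    have := Nat.le_of_dvd hM0 h
    omega
  have hp2 : p ≠ 2 := (hMs p hp.out hpM).2
  have hp1' : (1 : ℝ) < p := by exact_mod_cast hp.out.one_lt
  have hp0 : (0 : ℝ) < p := by linarith
  obtain ⟨Bd, hBd⟩ : ∃ Bd : ℝ, ∀ x ∈ E, ‖((x : ℚ) : ℚ_[p])‖ ≤ Bd := by
    obtain ⟨Bd, h⟩ := (hE.image fun x : ℚ => ‖((x : ℚ) : ℚ_[p])‖).bddAbove
    exact ⟨Bd, fun x hx => h (Set.mem_image_of_mem _ hx)⟩
  obtain ⟨f, hf⟩ : ∃ f : ℕ, max (max Bd (M ^ k / δ)) 1 < (p : ℝ) ^ f :=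
    pow_unbounded_of_one_lt _ hp1'
  have hf1 : Bd < (p : ℝ) ^ f := lt_of_le_of_lt ((le_max_left _ _).trans (le_max_left _ _)) hf
  have hf2 : (M : ℝ) ^ k / δ < (p : ℝ) ^ f :=
    lt_of_le_of_lt ((le_max_right _ _).trans (le_max_left _ _)) hf
  have hf3 : 1 < (p : ℝ) ^ f := lt_of_le_of_lt (le_max_right _ _) hf
  have hf4 : (p : ℝ) ^ f ≤ (p : ℝ) ^ (2 * f) := pow_le_pow_right₀ hp1'.le (by omega)
  set c : ℚ := (M : ℚ) ^ k / (p : ℚ) ^ (2 * f) with hc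
  set b : ℚ := a + c with hb
  have hba : b - a = c := by rw [hb]; ring
  have hpq : (p : ℚ) ≠ 0 := by exact_mod_cast hp.out.ne_zero
  -- the norms of c
  have hcp : ‖(c : ℚ_[p])‖ = (p : ℝ) ^ (2 * f) := by
    rw [hc]
    push_cast
    rw [norm_div, norm_pow, norm_pow, norm_nd p M hpM, Padic.norm_p, one_pow, inv_pow, one_div,
      inv_inv]
  have hcl : ∀ (l : ℕ) [Fact l.Prime], l ≠ p → ‖(c : ℚ_[l])‖ = ‖(M : ℚ_[l])‖ ^ k := by
    intro l _ hlp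
    rw [hc]
    push_cast
    rw [norm_div, norm_pow, norm_pow, norm_ne l p hlp, one_pow, div_one]
  have hbp : ‖(b : ℚ_[p])‖ = (p : ℝ) ^ (2 * f) := by
    rw [hb]
    push_cast
    have h1 : ‖(a : ℚ_[p])‖ ≤ 1 := haint p hpM
    have h2 : ‖(a : ℚ_[p])‖ < ‖(c : ℚ_[p])‖ := by
      rw [hcp]
      linarith
    rw [Padic.add_eq_max_of_ne h2.ne, max_eq_right h2.le, hcp]
  have hR := hreal b (by
    rw [hba, hc]
    push_cast
    rw [abs_of_nonneg (by positivity), div_lt_iff₀ (by positivity)]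
    rw [div_lt_iff₀ hδ] at hf2
    have h1 : (p : ℝ) ^ f * δ ≤ (p : ℝ) ^ (2 * f) * δ := mul_le_mul_of_nonneg_right hf4 hδ.le
    linarith)
  refine ⟨p, hp, b, hpQ, ?_, ?_, ?_⟩
  · rw [hbp]
    linarith
  · intro hbE
    have := hBd b hbE
    rw [hbp] at this
    linarith
  · refine hH n hn _ hR.1 hR.2 ?_
    intro l hl
    by_cases hlp : l = p
    · subst hlp
      refine hN₁ l (by omega) hp1 hplc b ?_ ?_
      · rw [hbp]
        linarith
      · -- `b` is a square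
        have hM0' : (M : ℚ_[l]) ≠ 0 := by exact_mod_cast hM0.ne'
        have hl0 : (l : ℚ_[l]) ≠ 0 := by exact_mod_cast hl.out.ne_zero
        have hs := sq_one_add l hp2 ((a : ℚ_[l]) * (l : ℚ_[l]) ^ (2 * f) / (M : ℚ_[l]) ^ k) (by
          rw [norm_div, norm_mul, norm_pow, norm_pow, norm_nd l M hpM, Padic.norm_p, one_pow,
            div_one, inv_pow]
          have h1 : ‖(a : ℚ_[l])‖ ≤ 1 := haint l hpM
          have h2 : ((l : ℝ) ^ (2 * f))⁻¹ < 1 := inv_lt_one_of_one_lt₀ (by linarith)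
          have h3 : (0 : ℝ) < ((l : ℝ) ^ (2 * f))⁻¹ := by positivity
          nlinarith)
        obtain ⟨s, hs⟩ := hs
        refine ⟨(M : ℚ_[l]) ^ (∑ l ∈ M.primeFactors, κ l) / (l : ℚ_[l]) ^ f * s, ?_⟩
        have h5 : (M : ℚ_[l]) ^ (∑ l ∈ M.primeFactors, κ l) / (l : ℚ_[l]) ^ f * s *
            ((M : ℚ_[l]) ^ (∑ l ∈ M.primeFactors, κ l) / (l : ℚ_[l]) ^ f * s) =
            (M : ℚ_[l]) ^ k / (l : ℚ_[l]) ^ (2 * f) * (s * s) := by
          rw [hk, two_mul, two_mul, pow_add, pow_add]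
          field_simp
        rw [h5, ← hs, hb, hc]
        push_cast
        field_simp
        ring
    · by_cases hlM : l ∣ M
      · refine hκ l k (hkl l hl.out hlM) b ?_
        rw [hba, hcl l hlp]
        exact pow_le_pow_left₀ (norm_nonneg _) (norm_dv l M hlM) k
      · have h1 := hMs l hl.out hlM
        have h2 : ‖(b : ℚ_[l])‖ ≤ 1 := by
          rw [hb]
          push_cast
          refine (Padic.nonarchimedean _ _).trans (max_le (haint l hlM) ?_)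
          rw [hcl l hlp, norm_nd l M hlM, one_pow]
        have h3 := hN₀ l h1.1 ⟨(b : ℚ_[l]), h2⟩ (by
          intro i
          show aeval (b : ℚ_[l]) (D i) ≠ 0
          rw [← cast_aeval]
          exact_mod_cast hR.1 i)
        have h4 : (fun i => ((aeval b (D i) : ℚ) : ℚ_[l])) = fun i => aeval (b : ℚ_[l]) (D i) := by
          funext i
          exact cast_aeval _ _ _
        rw [h4]
        exact h3

end Pool.Agent.U200.PC
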